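import Pool.Agent.Helper84.PH.Defs

/-! Piece EX3b for `MP_398e1f_an`: from holomorphic actions of `ℂ^*` to holomorphic actions of `ℂ`. -/

open scoped Manifold ContDiff Topology
open Set Filter

noncomputable section

namespace HolPH

/-- `exp : ℂ → ℂˣ`. -/
def expUnit (s : ℂ) : ℂˣ := Units.mk0 (Complex.exp s) (Complex.exp_ne_zero s)

theorem expUnit_zero : expUnit 0 = 1 := by
  ext; simp [expUnit]

theorem expUnit_add (s t : ℂ) : expUnit (s + t) = expUnit s * expUnit t := by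
  ext; simp [expUnit, Complex.exp_add]

theorem contMDiff_expUnit : ContMDiff 𝓘(ℂ, ℂ) 𝓘(ℂ, ℂ) ω expUnit := by
  apply ContMDiff.of_comp_isOpenEmbedding Units.isOpenEmbedding_val
  have : (Units.val : ℂˣ → ℂ) ∘ expUnit = Complex.exp := by
    ext s; simp [expUnit]
  rw [this]
  exact Complex.contDiff_exp.contMDiff

/-- EX3'.  From actions of `ℂ^*` to actions of `ℂ` (`s ↦ exp s`): a time-`t` map is a member of a
holomorphic `ℂ`-action with which it commutes. -/
theorem IsTimeMap.exists_flow {M : Type*} [TopologicalSpace M] [ChartedSpace C3 M]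
    [IsManifold I3 ω M] {g : M → M} (hg : IsTimeMap g) :
    ∃ φ : ℂ → M → M, (∀ x, φ 0 x = x) ∧ (∀ s t x, φ (s + t) x = φ s (φ t x)) ∧
      ContMDiff (𝓘(ℂ, ℂ).prod I3) I3 ω (fun p : ℂ × M => φ p.1 p.2) ∧
      (∀ s x, φ s (g x) = g (φ s x)) ∧ ∃ s, ∀ x, g x = φ s x := by
  obtain ⟨ψ, hψ, t, ht⟩ := hg
  refine ⟨fun s x => ψ (expUnit s) x, fun x => ?_, fun s t x => ?_, ?_, fun s x => ?_,
    Complex.log (t : ℂ), fun x => ?_⟩
  · simp only [expUnit_zero, hψ.one]
  · simp only [expUnit_add, hψ.mul]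
  · have h1 : ContMDiff (𝓘(ℂ, ℂ).prod I3) (𝓘(ℂ, ℂ).prod I3) ω
        (fun p : ℂ × M => ((expUnit p.1, p.2) : ℂˣ × M)) :=
      (contMDiff_expUnit.comp contMDiff_fst).prodMk contMDiff_snd
    exact hψ.holo.comp h1
  · simp only [ht, ← hψ.mul, mul_comm]
  · have : expUnit (Complex.log (t : ℂ)) = t := by
      ext; simp [expUnit, Complex.exp_log t.ne_zero]
    rw [ht]
    simp only [this]

end HolPH
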